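import Pool.Agent.helper87.AU.SpecQ1

namespace Pool.Agent.helper53.AU

open scoped Classical IntermediateField
open Polynomial (aeval)

noncomputable section

theorem QA2_ge {k F : Type} [Field k] [Field F] [Algebra k F] (P : Place k F) (x : F) (n : ℕ)
    (hx : P.ord x = -(n : ℤ)) (ψ : Polynomial k) (M : ℕ) (hM : ψ.natDegree ≤ M) :
    P.Ge (-(n * M : ℤ)) (aeval x ψ) := by
  rw [Polynomial.aeval_eq_sum_range' (Nat.lt_succ_of_le hM)]
  refine Place.Ge.sum _ _ fun i hi => ?_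
  have h1 : P.Ge ((i : ℤ) * -(n : ℤ)) (x ^ i) := Place.Ge.pow (Or.inr (by rw [hx])) i
  refine (Place.Ge.smul _ h1).mono ?_
  have h2 : (i : ℤ) ≤ M := by exact_mod_cast Nat.lt_succ_iff.1 (Finset.mem_range.1 hi)
  nlinarith

theorem QA2_ord {k F : Type} [Field k] [Field F] [Algebra k F] (P : Place k F) (x : F) (n : ℕ)
    (hn : 0 < n) (hx : P.ord x = -(n : ℤ)) (hx0 : x ≠ 0) (φ : Polynomial k) (hφ : φ ≠ 0) :
    aeval x φ ≠ 0 ∧ P.ord (aeval x φ) = -(n * φ.natDegree : ℤ) := by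
  have hlc : φ.leadingCoeff ≠ 0 := Polynomial.leadingCoeff_ne_zero.2 hφ
  set a : F := algebraMap k F φ.leadingCoeff * x ^ φ.natDegree with ha
  have ha0 : a ≠ 0 := mul_ne_zero (by simpa using hlc) (pow_ne_zero _ hx0)
  have haord : P.ord a = -(n * φ.natDegree : ℤ) := by
    rw [ha, P.ord_mul _ _ (by simpa using hlc) (pow_ne_zero _ hx0), P.ord_const _ hlc,
      P.ord_pow hx0, hx]
    ring
  have hsplit : aeval x φ = a + aeval x φ.eraseLead := by
    conv_lhs => rw [← Polynomial.eraseLead_add_C_mul_X_pow φ]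
    rw [map_add, map_mul, Polynomial.aeval_C, map_pow, Polynomial.aeval_X, add_comm]
  have hrest : P.Ge (P.ord a + 1) (aeval x φ.eraseLead) := by
    by_cases h0 : φ.eraseLead = 0
    · rw [h0, map_zero]
      exact P.ge_zero _
    · have hdeg : φ.eraseLead.natDegree ≤ φ.natDegree - 1 := Polynomial.eraseLead_natDegree_le φ
      have hpos : 0 < φ.natDegree := by
        by_contra hcon
        have h3 : φ.natDegree = 0 := by omega
        apply h0
        rw [Polynomial.eq_C_of_natDegree_eq_zero h3, Polynomial.eraseLead_C]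
      refine (QA2_ge P x n hx _ _ hdeg).mono ?_
      rw [haord]
      have h4 : ((φ.natDegree - 1 : ℕ) : ℤ) = (φ.natDegree : ℤ) - 1 := by omega
      rw [h4]
      have h5 : (1 : ℤ) ≤ n := by exact_mod_cast hn
      nlinarith
  rw [hsplit]
  obtain ⟨h1, h2⟩ := Place.ord_add_eq ha0 hrest
  exact ⟨h1, h2.trans haord⟩

theorem QA2 : QA2_stmt := by
  intro k F _ _ _ P₀ x n u μ hO φ hφ
  have hx0 : x ≠ 0 := by
    intro h
    have h1 := hO.xord
    rw [h, P₀.ord_zero] at h1
    have := hO.pos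
    omega
  set T : Fin n → F := fun i => aeval x (φ i) * u i with hT
  set m : Fin n → ℤ := fun i => (n * (φ i).natDegree + μ i : ℤ) with hm
  have hTord : ∀ i, φ i ≠ 0 → T i ≠ 0 ∧ P₀.ord (T i) = -m i := by
    intro i hi
    obtain ⟨h1, h2⟩ := QA2_ord P₀ x n hO.pos hO.xord hx0 (φ i) hi
    refine ⟨mul_ne_zero h1 (hO.ne i), ?_⟩
    rw [hT, P₀.ord_mul _ _ h1 (hO.ne i), h2, hO.ord i]
    simp only [hm]
    ring
  have hT0 : ∀ i, φ i = 0 → T i = 0 := by
    intro i hi
    simp only [hT]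
    rw [hi, map_zero, zero_mul]
  have hmod : ∀ i j, m i = m j → i = j := by
    intro i j h
    have h1 : ((n * (φ i).natDegree + μ i : ℕ) : ℤ) = ((n * (φ j).natDegree + μ j : ℕ) : ℤ) := by
      push_cast
      exact h
    have h2 : n * (φ i).natDegree + μ i = n * (φ j).natDegree + μ j := by exact_mod_cast h1
    have h3 := congrArg (fun z => z % n) h2
    simp only [Nat.mul_add_mod] at h3
    rw [hO.res i, hO.res j] at h3
    exact Fin.ext h3
  -- the maximal term
  set s : Finset (Fin n) := Finset.univ.filter fun i => φ i ≠ 0 with hs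
  have hsne : s.Nonempty := by
    obtain ⟨i, hi⟩ := hφ
    exact ⟨i, Finset.mem_filter.2 ⟨Finset.mem_univ _, hi⟩⟩
  obtain ⟨i0, hi0, hmax⟩ := Finset.exists_max_image s m hsne
  have hi0' : φ i0 ≠ 0 := (Finset.mem_filter.1 hi0).2
  obtain ⟨hne0, hord0⟩ := hTord i0 hi0'
  have hrest : P₀.Ge (P₀.ord (T i0) + 1) (∑ i ∈ Finset.univ.erase i0, T i) := by
    refine Place.Ge.sum _ _ fun i hi => ?_
    by_cases h : φ i = 0
    · rw [hT0 i h]
      exact P₀.ge_zero _
    · obtain ⟨h1, h2⟩ := hTord i h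
      refine Or.inr ?_
      rw [h2, hord0]
      have h3 : m i ≤ m i0 := hmax i (Finset.mem_filter.2 ⟨Finset.mem_univ _, h⟩)
      have h4 : m i ≠ m i0 := fun h5 => (Finset.mem_erase.1 hi).1 (hmod i i0 h5)
      omega
  have hsum : ∑ i, aeval x (φ i) * u i = T i0 + ∑ i ∈ Finset.univ.erase i0, T i := by
    rw [Finset.add_sum_erase _ _ (Finset.mem_univ i0)]
  obtain ⟨h1, h2⟩ := Place.ord_add_eq hne0 hrest
  rw [hsum]
  refine ⟨h1, fun i hi => ?_, i0, hi0', ?_⟩
  · rw [h2, hord0, neg_neg]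
    exact hmax i (Finset.mem_filter.2 ⟨Finset.mem_univ _, hi⟩)
  · rw [h2, hord0, neg_neg]

end

end Pool.Agent.helper53.AU
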