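import Pool.Agent.helper87.AU.SpecQ2

namespace Pool.Agent.helper53.AU

open scoped Classical IntermediateField

noncomputable section

/-- leading term of an element -/
theorem QF9_lead (hV : QV1_stmt) {k F : Type} [Field k] [IsAlgClosed k] [Field F] [Algebra k F]
    (hF : IsFF k F) (P : Place k F) (y t : F) (hy : y ≠ 0) (ht : P.Unif t) :
    ∃ b : k, b ≠ 0 ∧ P.Ge (P.ord y + 1) (y - algebraMap k F b * t ^ (P.ord y)) := by
  have ht0 : t ≠ 0 := ht.1
  have hz : P.ord (y * t ^ (-P.ord y)) = 0 := by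
    rw [P.ord_mul _ _ hy (zpow_ne_zero _ ht0), P.ord_zpow ht0, ht.2]
    ring
  obtain ⟨b, hb⟩ := hV k F hF P (y * t ^ (-P.ord y)) (Or.inr hz.ge)
  have hb0 : b ≠ 0 := by
    rintro rfl
    rw [map_zero, sub_zero] at hb
    have := hb.le (mul_ne_zero hy (zpow_ne_zero _ ht0))
    omega
  refine ⟨b, hb0, ?_⟩
  have h1 : P.Ge (P.ord y) (t ^ (P.ord y)) := Or.inr (by rw [P.ord_zpow ht0, ht.2]; omega)
  have h2 := hb.mul h1
  have h3 : (y * t ^ (-P.ord y) - algebraMap k F b) * t ^ (P.ord y) =
      y - algebraMap k F b * t ^ (P.ord y) := by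
    rw [sub_mul, mul_assoc, ← zpow_add₀ ht0]
    simp
  rw [h3] at h2
  exact h2.mono (by omega)

/-- independence of characters -/
theorem QF9_trace {k F : Type} [Field k] [Field F] [Algebra k F] (s : F ≃ₐ[k] F) (hs : s ≠ 1)
    (hs3 : s ^ 3 = 1) : ∃ w : F, w + s w + s (s w) ≠ 0 := by
  by_contra hcon
  push Not at hcon
  set m : Fin 3 → (F →* F) := ![MonoidHom.id F, (s : F →* F), ((s * s : F ≃ₐ[k] F) : F →* F)] with hm
  have happ0 : ∀ w, m 0 w = w := fun w => rfl
  have happ1 : ∀ w, m 1 w = s w := fun w => rfl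
  have happ2 : ∀ w, m 2 w = s (s w) := fun w => rfl
  have h01 : m 0 ≠ m 1 := by
    intro h
    apply hs
    ext w
    have := DFunLike.congr_fun h w
    rw [happ0, happ1] at this
    exact this.symm
  have h02 : m 0 ≠ m 2 := by
    intro h
    apply hs
    have h2 : s * s = 1 := by
      ext w
      have := DFunLike.congr_fun h w
      rw [happ0, happ2] at this
      exact this.symm
    have h3 : s ^ 3 = s * s * s := by rw [pow_succ, pow_two]
    rw [h3, h2, one_mul] at hs3
    exact hs3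
  have h12 : m 1 ≠ m 2 := by
    intro h
    apply hs
    ext w
    have := DFunLike.congr_fun h w
    rw [happ1, happ2] at this
    exact (s.injective this).symm
  have hinj : Function.Injective m := by
    intro i j hij
    fin_cases i <;> fin_cases j
    · rfl
    · exact absurd hij h01
    · exact absurd hij h02
    · exact absurd hij.symm h01
    · rfl
    · exact absurd hij h12
    · exact absurd hij.symm h02
    · exact absurd hij.symm h12
    · rfl
  have hli := (linearIndependent_monoidHom F F).comp m hinj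
  rw [Fintype.linearIndependent_iff] at hli
  have h1 := hli (fun _ => 1) (by
    funext w
    simp only [Fin.sum_univ_three, Function.comp_apply, one_smul, Pi.add_apply, Pi.zero_apply]
    exact hcon w) 0
  exact one_ne_zero h1

theorem QF9 (h1 : QF1_stmt) (h2 : QF2_stmt) (h3 : QF3_stmt) (h4 : QF4_stmt) (hV : QV1_stmt) :
    QF9_stmt := by
  intro k F _ _ _ _ _ hF P s hsP hs hs3
  have h3k : (3 : k) = 0 := by exact_mod_cast CharP.cast_eq_zero k 3
  have h3F : (3 : F) = 0 := by
    have := congrArg (algebraMap k F) h3k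
    rwa [map_ofNat, map_zero] at this
  have hs3' : ∀ w, s (s (s w)) = w := by
    intro w
    have := DFunLike.congr_fun hs3 w
    rw [pow_succ, pow_two] at this
    exact this
  -- theta = 1
  have hth : P.theta s = 1 := by
    have hs2P : (s * s) • P = P := by rw [mul_smul, hsP, hsP]
    have e1 : P.theta (s * s * s) = P.theta s * P.theta s * P.theta s := by
      rw [(h3 k F hF P).1 (s * s) s hs2P hsP, (h3 k F hF P).1 s s hsP hsP]
    have e2 : s * s * s = 1 := by rw [← hs3, pow_succ, pow_two]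
    have e3 : P.theta (1 : F ≃ₐ[k] F) = 1 := (h2 k F hF P 1 (one_smul _ P)).2.2.2.2 (Or.inl rfl)
    rw [e2, e3] at e1
    have e4 : (P.theta s - 1) ^ 3 = 0 := by
      have : (P.theta s - 1) ^ 3 = P.theta s * P.theta s * P.theta s - 1 -
          3 * (P.theta s ^ 2 - P.theta s) := by ring
      rw [this, ← e1, h3k]
      ring
    exact sub_eq_zero.1 (pow_eq_zero_iff (three_ne_zero) |>.1 e4)
  have hj : 1 ≤ P.jump s := by
    rcases (h2 k F hF P s hsP).2.2.2.1 hth with h | h
    · exact absurd h hs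
    · exact h
  -- a solution of `s y - y = 1`
  have hex : ∃ y : F, s y - y = 1 := by
    obtain ⟨w, hw⟩ := QF9_trace s hs hs3
    set T := w + s w + s (s w) with hT
    have hsT : s T = T := by
      rw [hT, map_add, map_add, hs3']
      ring
    refine ⟨-(s w + 2 * s (s w)) / T, ?_⟩
    rw [map_div₀, hsT, map_neg, map_add, map_mul, hs3', map_ofNat, ← sub_div, div_eq_one_iff_eq hw]
    rw [hT]
    linear_combination (-w) * h3F
  have hneg : ∀ y : F, s y - y = 1 → y ≠ 0 ∧ P.ord y < 0 := by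
    intro y hy
    have hy0 : y ≠ 0 := by
      rintro rfl
      rw [map_zero, sub_zero] at hy
      exact zero_ne_one hy
    refine ⟨hy0, ?_⟩
    by_contra hcon
    have h5 := (h1 k F hF P s hsP hs).2 0 y (Or.inr (not_lt.1 hcon))
    rw [hy] at h5
    have h6 := h5.le one_ne_zero
    rw [P.ord_one] at h6
    omega
  -- choose the solution of largest order
  have hmin : ∃ n : ℕ, ∃ y : F, s y - y = 1 ∧ P.ord y = -(n : ℤ) := by
    obtain ⟨y, hy⟩ := hex
    refine ⟨(-P.ord y).toNat, y, hy, ?_⟩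
    have := (hneg y hy).2
    omega
  set n := Nat.find hmin with hn
  obtain ⟨y, hy, hyn⟩ := Nat.find_spec hmin
  rw [← hn] at hyn
  obtain ⟨hy0, hylt⟩ := hneg y hy
  have htu := P.unif_spec
  have ht0 : P.unif ≠ 0 := htu.1
  have hn3 : n % 3 ≠ 0 := by
    intro hmod
    obtain ⟨m, hm⟩ : ∃ m : ℕ, n = 3 * m := ⟨n / 3, by omega⟩
    set t := P.unif with ht
    set N := t * s t * s (s t) with hN
    have hst0 : s t ≠ 0 := by simpa using ht0
    have hsst0 : s (s t) ≠ 0 := by simpa using ht0
    have hN0 : N ≠ 0 := mul_ne_zero (mul_ne_zero ht0 hst0) hsst0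
    have hsN : s N = N := by
      rw [hN, map_mul, map_mul, hs3']
      ring
    have hNord : P.ord N = 3 := by
      rw [hN, P.ord_mul _ _ (mul_ne_zero ht0 hst0) hsst0, P.ord_mul _ _ ht0 hst0,
        ord_apply_of_smul_eq hsP, ord_apply_of_smul_eq hsP, ord_apply_of_smul_eq hsP, htu.2]
      rfl
    have hz : P.ord (y * N ^ m) = 0 := by
      rw [P.ord_mul _ _ hy0 (pow_ne_zero _ hN0), P.ord_pow hN0, hNord, hyn, hm]
      push_cast
      ring
    obtain ⟨b, hb⟩ := hV k F hF P (y * N ^ m) (Or.inr hz.ge)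
    set y' := y - algebraMap k F b * (N ^ m)⁻¹ with hy'
    have hNm0 : N ^ m ≠ 0 := pow_ne_zero _ hN0
    have hsy' : s y' - y' = 1 := by
      rw [hy', map_sub, map_mul, map_inv₀, map_pow, hsN, AlgEquiv.commutes]
      linear_combination hy
    obtain ⟨hy'0, hy'lt⟩ := hneg y' hsy'
    have hge : P.Ge (P.ord y + 1) y' := by
      have h7 : P.Ge (-(3 * m : ℤ)) ((N ^ m)⁻¹) := Or.inr (by
        rw [P.ord_inv hNm0, P.ord_pow hN0, hNord]
        omega)
      have h8 := hb.mul h7
      have h9 : (y * N ^ m - algebraMap k F b) * (N ^ m)⁻¹ = y' := by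
        rw [hy', sub_mul, mul_assoc, mul_inv_cancel₀ hNm0, mul_one]
      rw [h9] at h8
      refine h8.mono ?_
      rw [hyn, hm]
      push_cast
      omega
    have h10 := hge.le hy'0
    have h11 : n ≤ (-P.ord y').toNat := Nat.find_min' hmin ⟨y', hsy', by omega⟩
    omega
  obtain ⟨b, hb0, hb⟩ := QF9_lead hV hF P y P.unif hy0 htu
  obtain ⟨hl0, -, hlead⟩ := h4 k F hF P s hsP hs hj
  have h12 := hlead (P.ord y) b y hb
  rw [hy] at h12
  have hnk : ((P.ord y : ℤ) : k) ≠ 0 := by
    rw [Ne, CharP.intCast_eq_zero_iff k 3, hyn]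
    intro h
    have h13 : ((3 : ℕ) : ℤ) ∣ (n : ℤ) := (dvd_neg).1 h
    have h14 : 3 ∣ n := by exact_mod_cast h13
    omega
  set c := ((P.ord y : ℤ) : k) * b * P.lcoef s with hc
  have hc0 : c ≠ 0 := mul_ne_zero (mul_ne_zero hnk hb0) hl0
  have hcF : algebraMap k F c ≠ 0 := by simpa using hc0
  have ha0 : algebraMap k F c * P.unif ^ (P.ord y + P.jump s) ≠ 0 :=
    mul_ne_zero hcF (zpow_ne_zero _ ht0)
  have haord : P.ord (algebraMap k F c * P.unif ^ (P.ord y + P.jump s)) = P.ord y + P.jump s := by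
    rw [P.ord_mul _ _ hcF (zpow_ne_zero _ ht0), P.ord_const _ hc0, P.ord_zpow ht0, htu.2]
    ring
  obtain ⟨-, h15⟩ := Place.ord_add_eq ha0 (h12.mono (by rw [haord]))
  rw [add_sub_cancel, P.ord_one, haord] at h15
  omega

end

end Pool.Agent.helper53.AU
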